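import Pool.Agent.H62.Per.Defs2

/-! Module ARMS of the linear lower bound for distinct perimeters (MP_588c6d_co). -/

set_option autoImplicit false

open Finset

namespace Pool.Agent.H86.Per

open Pool.Agent.H62.Per

/-! ### Distances and orientation -/

lemma dd_nonneg (p q : Pl) : 0 ≤ dd p q := Real.sqrt_nonneg _

lemma dd_sq (p q : Pl) : dd p q ^ 2 = (p.1 - q.1) ^ 2 + (p.2 - q.2) ^ 2 := by
  unfold dd
  exact Real.sq_sqrt (by positivity)

lemma dd_eq_of_sq {p q r s : Pl} (h : dd p q = dd r s) :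
    (p.1 - q.1) ^ 2 + (p.2 - q.2) ^ 2 = (r.1 - s.1) ^ 2 + (r.2 - s.2) ^ 2 := by
  rw [← dd_sq, ← dd_sq, h]

/-- two different points with the same distances to `p` and `q` are on different sides of the line
`p q` (or on it) -/
lemma mirror {p q x y : Pl} (hxy : x ≠ y) (hpq : p ≠ q) (h1 : dd p x = dd p y)
    (h2 : dd q x = dd q y) : ori p q x * ori p q y ≤ 0 := by
  have e1 := dd_eq_of_sq h1
  have e2 := dd_eq_of_sq h2
  set a := q.1 - p.1 with ha
  set b := q.2 - p.2 with hb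
  set x1 := x.1 - p.1 with hx1
  set x2 := x.2 - p.2 with hx2
  set y1 := y.1 - p.1 with hy1
  set y2 := y.2 - p.2 with hy2
  have E1 : x1 ^ 2 + x2 ^ 2 = y1 ^ 2 + y2 ^ 2 := by
    rw [hx1, hx2, hy1, hy2]; nlinarith [e1]
  have E2 : x1 * a + x2 * b = y1 * a + y2 * b := by
    rw [hx1, hx2, hy1, hy2, ha, hb]
    nlinarith [e1, e2]
  have hab : 0 < a ^ 2 + b ^ 2 := by
    by_contra hcon
    have : a ^ 2 + b ^ 2 = 0 := le_antisymm (not_lt.mp hcon) (by positivity)
    have ha0 : a = 0 := by nlinarith [sq_nonneg a, sq_nonneg b]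
    have hb0 : b = 0 := by nlinarith [sq_nonneg a, sq_nonneg b]
    apply hpq
    ext
    · linarith
    · linarith
  have hX : ori p q x = a * x2 - b * x1 := rfl
  have hY : ori p q y = a * y2 - b * y1 := rfl
  rw [hX, hY]
  have hsq : (a * x2 - b * x1) ^ 2 = (a * y2 - b * y1) ^ 2 := by
    have l1 : (a * x2 - b * x1) ^ 2 = (a ^ 2 + b ^ 2) * (x1 ^ 2 + x2 ^ 2) -
      (x1 * a + x2 * b) ^ 2 := by ring
    have l2 : (a * y2 - b * y1) ^ 2 = (a ^ 2 + b ^ 2) * (y1 ^ 2 + y2 ^ 2) -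
      (y1 * a + y2 * b) ^ 2 := by ring
    rw [l1, l2, E1, E2]
  rcases sq_eq_sq_iff_eq_or_eq_neg.mp hsq with h | h
  · exfalso
    apply hxy
    have k1 : (a ^ 2 + b ^ 2) * (x1 - y1) = 0 := by
      have : (a ^ 2 + b ^ 2) * (x1 - y1) = a * ((x1 * a + x2 * b) - (y1 * a + y2 * b)) -
        b * ((a * x2 - b * x1) - (a * y2 - b * y1)) := by ring
      rw [this, E2, h]; ring
    have k2 : (a ^ 2 + b ^ 2) * (x2 - y2) = 0 := by
      have : (a ^ 2 + b ^ 2) * (x2 - y2) = b * ((x1 * a + x2 * b) - (y1 * a + y2 * b)) +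
        a * ((a * x2 - b * x1) - (a * y2 - b * y1)) := by ring
      rw [this, E2, h]; ring
    have k1' : x1 - y1 = 0 := by
      rcases mul_eq_zero.mp k1 with h | h
      · linarith
      · exact h
    have k2' : x2 - y2 = 0 := by
      rcases mul_eq_zero.mp k2 with h | h
      · linarith
      · exact h
    ext
    · linarith
    · linarith
  · rw [h]
    nlinarith [sq_nonneg (a * y2 - b * y1)]

/-- a point of the line `p q` -/
lemma on_line {p q x : Pl} (hpq : p ≠ q) (h : ori p q x = 0) :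
    ∃ t : ℝ, x = (p.1 + t * (q.1 - p.1), p.2 + t * (q.2 - p.2)) := by
  set a := q.1 - p.1 with ha
  set b := q.2 - p.2 with hb
  have hab : 0 < a ^ 2 + b ^ 2 := by
    by_contra hcon
    have : a ^ 2 + b ^ 2 = 0 := le_antisymm (not_lt.mp hcon) (by positivity)
    have ha0 : a = 0 := by nlinarith [sq_nonneg a, sq_nonneg b]
    have hb0 : b = 0 := by nlinarith [sq_nonneg a, sq_nonneg b]
    apply hpq
    ext
    · linarith
    · linarith
  have hX : a * (x.2 - p.2) - b * (x.1 - p.1) = 0 := h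
  refine ⟨((x.1 - p.1) * a + (x.2 - p.2) * b) / (a ^ 2 + b ^ 2), ?_⟩
  ext
  · simp only
    have : ((x.1 - p.1) * a + (x.2 - p.2) * b) / (a ^ 2 + b ^ 2) * a = x.1 - p.1 := by
      rw [div_mul_eq_mul_div, div_eq_iff hab.ne']
      linear_combination b * hX
    linarith
  · simp only
    have : ((x.1 - p.1) * a + (x.2 - p.2) * b) / (a ^ 2 + b ^ 2) * b = x.2 - p.2 := by
      rw [div_mul_eq_mul_div, div_eq_iff hab.ne']
      linear_combination (-a) * hX
    linarith

lemma dd_line (p q : Pl) (t : ℝ) :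
    dd p (p.1 + t * (q.1 - p.1), p.2 + t * (q.2 - p.2)) = |t| * dd p q ∧
      dd q (p.1 + t * (q.1 - p.1), p.2 + t * (q.2 - p.2)) = |1 - t| * dd p q := by
  constructor
  · unfold dd
    simp only
    rw [← Real.sqrt_sq_eq_abs, ← Real.sqrt_mul (sq_nonneg _)]
    congr 1
    ring
  · unfold dd
    simp only
    rw [← Real.sqrt_sq_eq_abs, ← Real.sqrt_mul (sq_nonneg _)]
    congr 1
    ring

/-- a nondegenerate branch meets the line through its foci in only one point -/
lemma uniq {p q x y : Pl} (hpq : p ≠ q) (hx : ori p q x = 0) (hy : ori p q y = 0)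
    (h : dd p x - dd q x = dd p y - dd q y) (hh : |dd p x - dd q x| < dd p q) : x = y := by
  obtain ⟨t, rfl⟩ := on_line hpq hx
  obtain ⟨s, rfl⟩ := on_line hpq hy
  rw [(dd_line p q t).1, (dd_line p q t).2] at hh h
  rw [(dd_line p q s).1, (dd_line p q s).2] at h
  have hd : 0 < dd p q := lt_of_le_of_lt (abs_nonneg _) hh
  have key : ∀ r : ℝ, |(|r| * dd p q - |1 - r| * dd p q)| < dd p q →
      |r| - |1 - r| = 2 * r - 1 := by
    intro r hr
    rw [← sub_mul, abs_mul, abs_of_pos hd] at hr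
    have hr' : |(|r| - |1 - r|)| < 1 := by
      by_contra hc
      push Not at hc
      nlinarith
    have h0 : 0 ≤ r := by
      by_contra hc
      push Not at hc
      rw [abs_of_neg hc, abs_of_pos (by linarith : (0:ℝ) < 1 - r)] at hr'
      have : -r - (1 - r) = -1 := by ring
      rw [this] at hr'
      norm_num at hr'
    have h1 : 0 ≤ 1 - r := by
      by_contra hc
      push Not at hc
      rw [abs_of_nonneg h0, abs_of_neg hc] at hr'
      have : r - -(1 - r) = 1 := by ring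
      rw [this] at hr'
      norm_num at hr'
    rw [abs_of_nonneg h0, abs_of_nonneg h1]
    ring
  have hs : |(|s| * dd p q - |1 - s| * dd p q)| < dd p q := by rw [← h]; exact hh
  have k1 := key t hh
  have k2 := key s hs
  have k3 : (|t| - |1 - t|) * dd p q = (|s| - |1 - s|) * dd p q := by
    rw [sub_mul, sub_mul]; exact h
  have k4 : |t| - |1 - t| = |s| - |1 - s| := mul_right_cancel₀ hd.ne' k3
  have : t = s := by linarith
  rw [this]

/-! ### The points whose colour is separated by the line `p q` -/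

/-- coefficients of the line `p q` -/
lemma ori_lin (p q z : Pl) :
    ori p q z = lin (-(q.2 - p.2)) (q.1 - p.1) (-(q.1 - p.1) * p.2 + (q.2 - p.2) * p.1) z := by
  unfold ori lin
  ring

/-- points of `P` whose colour is separated by the line `p q` -/
noncomputable def PL (P : Finset Pl) (χ : Pl → ℕ) (p q : Pl) : Finset Pl :=
  P.filter (fun x => χ x ∈ sepcol P χ (-(q.2 - p.2)) (q.1 - p.1)
    (-(q.1 - p.1) * p.2 + (q.2 - p.2) * p.1))

lemma mem_PL {P : Finset Pl} {χ : Pl → ℕ} {p q x y : Pl} (hx : x ∈ P) (hy : y ∈ P) (hxy : x ≠ y)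
    (hc : χ x = χ y) (h : ori p q x * ori p q y ≤ 0) : x ∈ PL P χ p q := by
  unfold PL sepcol
  rw [mem_filter]
  refine ⟨hx, ?_⟩
  rw [mem_image]
  refine ⟨(x, y), ?_, rfl⟩
  rw [mem_filter, mem_offDiag]
  refine ⟨⟨hx, hy, hxy⟩, hc, ?_⟩
  rw [← ori_lin, ← ori_lin]
  exact h

lemma card_PL_le (P : Finset Pl) (χ : Pl → ℕ) (c : ℝ) (hc : CrLe P χ c) (p q : Pl) (hpq : p ≠ q) :
    ((PL P χ p q).card : ℝ) ≤ Real.sqrt (2 * c * prs P χ) := by
  classical
  set S := sepcol P χ (-(q.2 - p.2)) (q.1 - p.1) (-(q.1 - p.1) * p.2 + (q.2 - p.2) * p.1) with hS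
  have hcS : (S.card : ℝ) ≤ c := by
    apply hc
    by_contra hcon
    push Not at hcon
    apply hpq
    ext
    · linarith [hcon.2]
    · linarith [hcon.1]
  have hcard : (PL P χ p q).card = ∑ a ∈ S, (P.filter (fun x => χ x = a)).card := by
    unfold PL
    rw [Finset.card_eq_sum_card_fiberwise (f := χ) (t := S)]
    · apply Finset.sum_congr rfl
      intro a ha
      congr 1
      ext x
      simp only [mem_filter]
      constructor
      · rintro ⟨⟨h1, h2⟩, h3⟩
        exact ⟨h1, h3⟩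
      · rintro ⟨h1, h3⟩
        refine ⟨⟨h1, ?_⟩, h3⟩
        rw [h3]
        exact ha
    · intro x hx
      rw [mem_coe, mem_filter] at hx
      exact hx.2
  have hsum : ∑ a ∈ S, ((P.filter (fun x => χ x = a)).card : ℝ) ^ 2 ≤ 2 * prs P χ := by
    have h2 : ∀ a ∈ S, ((P.filter (fun x => χ x = a)).card : ℝ) ^ 2 ≤
        2 * ((P.offDiag.filter (fun s => χ s.1 = χ s.2)).filter (fun s => χ s.1 = a)).card := by
      intro a ha
      have e : (P.offDiag.filter (fun s => χ s.1 = χ s.2)).filter (fun s => χ s.1 = a) =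
          (P.filter (fun x => χ x = a)).offDiag := by
        ext ⟨x, y⟩
        simp only [mem_filter, mem_offDiag]
        constructor
        · rintro ⟨⟨⟨h1, h2, h3⟩, h4⟩, h5⟩
          exact ⟨⟨h1, h5⟩, ⟨h2, h4 ▸ h5⟩, h3⟩
        · rintro ⟨⟨h1, h5⟩, ⟨h2, h6⟩, h3⟩
          exact ⟨⟨⟨h1, h2, h3⟩, h5.trans h6.symm⟩, h5⟩
      rw [e, Finset.offDiag_card]
      set k := (P.filter (fun x => χ x = a)).card with hk
      have hk2 : 2 ≤ k := by
        rw [hS] at ha
        unfold sepcol at ha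
        rw [mem_image] at ha
        obtain ⟨s, hs, rfl⟩ := ha
        rw [mem_filter, mem_offDiag] at hs
        obtain ⟨⟨h1, h2, h3⟩, h4, h5⟩ := hs
        have : 1 < k := by
          rw [hk, Finset.one_lt_card]
          exact ⟨s.1, mem_filter.mpr ⟨h1, rfl⟩, s.2, mem_filter.mpr ⟨h2, h4.symm⟩, h3⟩
        exact this
      have hle : k ≤ k * k := Nat.le_mul_self k
      rw [Nat.cast_sub hle]
      push_cast
      have : (2:ℝ) ≤ k := by exact_mod_cast hk2
      nlinarith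
    calc ∑ a ∈ S, ((P.filter (fun x => χ x = a)).card : ℝ) ^ 2
        ≤ ∑ a ∈ S, 2 * (((P.offDiag.filter (fun s => χ s.1 = χ s.2)).filter
            (fun s => χ s.1 = a)).card : ℝ) := Finset.sum_le_sum h2
      _ = 2 * (∑ a ∈ S, ((P.offDiag.filter (fun s => χ s.1 = χ s.2)).filter
            (fun s => χ s.1 = a)).card : ℕ) := by
          rw [← Finset.mul_sum]; push_cast; rfl
      _ ≤ 2 * prs P χ := by
          have : ∑ a ∈ S, ((P.offDiag.filter (fun s => χ s.1 = χ s.2)).filter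
              (fun s => χ s.1 = a)).card ≤ prs P χ := by
            unfold prs
            rw [← Finset.card_biUnion]
            · apply Finset.card_le_card
              intro s hs
              rw [mem_biUnion] at hs
              obtain ⟨a, _, h⟩ := hs
              exact (mem_filter.mp h).1
            · intro a _ b _ hab
              rw [Function.onFun, Finset.disjoint_left]
              intro s h1 h2
              exact hab ((mem_filter.mp h1).2.symm.trans (mem_filter.mp h2).2)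
          have h' : ((∑ a ∈ S, ((P.offDiag.filter (fun s => χ s.1 = χ s.2)).filter
              (fun s => χ s.1 = a)).card : ℕ) : ℝ) ≤ prs P χ := by exact_mod_cast this
          linarith
  apply Real.le_sqrt_of_sq_le
  have cs := Finset.sum_mul_sq_le_sq_mul_sq S (fun _ => (1:ℝ))
    (fun a => ((P.filter (fun x => χ x = a)).card : ℝ))
  simp only [one_mul, one_pow, Finset.sum_const, nsmul_eq_mul, mul_one] at cs
  have hc2 : ((PL P χ p q).card : ℝ) = ∑ a ∈ S, ((P.filter (fun x => χ x = a)).card : ℝ) := by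
    rw [hcard]; push_cast; rfl
  rw [hc2]
  have hprs : (0:ℝ) ≤ prs P χ := Nat.cast_nonneg _
  calc (∑ a ∈ S, ((P.filter (fun x => χ x = a)).card : ℝ)) ^ 2
      ≤ S.card * ∑ a ∈ S, ((P.filter (fun x => χ x = a)).card : ℝ) ^ 2 := cs
    _ ≤ c * (2 * prs P χ) := by
        apply mul_le_mul hcS hsum
        · exact Finset.sum_nonneg (fun a _ => sq_nonneg _)
        · exact le_trans (Nat.cast_nonneg _) hcS
    _ = 2 * c * prs P χ := by ring

/-! ### Opposite pairs -/

lemma opp_le {α β : Type*} [DecidableEq β] (L : Finset α) (f : α → β) (s : α → ℝ) :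
    ((L ×ˢ L).filter (fun t => f t.1 = f t.2 ∧ s t.1 * s t.2 < 0)).card ≤
      ((L ×ˢ L).filter (fun t => f t.1 = f t.2 ∧ 0 < s t.1 * s t.2)).card := by
  classical
  let g : α → ℝ := fun x => if 0 < s x then 1 else if s x < 0 then -1 else 0
  have hg : ∀ x y, g x * g y = (if 0 < s x * s y then (1:ℝ) else 0) -
      (if s x * s y < 0 then 1 else 0) := by
    intro x y
    simp only [g]
    rcases lt_trichotomy (s x) 0 with hx | hx | hx <;>
      rcases lt_trichotomy (s y) 0 with hy | hy | hy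
    · have := mul_pos_of_neg_of_neg hx hy
      rw [if_neg hx.not_gt, if_pos hx, if_neg hy.not_gt, if_pos hy, if_pos this,
        if_neg this.not_gt]; norm_num
    · rw [hy]; simp
    · have := mul_neg_of_neg_of_pos hx hy
      rw [if_neg hx.not_gt, if_pos hx, if_pos hy, if_neg this.not_gt, if_pos this]; norm_num
    · rw [hx]; simp
    · rw [hx]; simp
    · rw [hx]; simp
    · have := mul_neg_of_pos_of_neg hx hy
      rw [if_pos hx, if_neg hy.not_gt, if_pos hy, if_neg this.not_gt, if_pos this]; norm_num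
    · rw [hy]; simp
    · have := mul_pos hx hy
      rw [if_pos hx, if_pos hy, if_pos this, if_neg this.not_gt]; norm_num
  have h1 : 0 ≤ ∑ t ∈ L ×ˢ L, if f t.1 = f t.2 then g t.1 * g t.2 else 0 := by
    rw [Finset.sum_product]
    have : ∀ x ∈ L, (∑ y ∈ L, if f x = f y then g x * g y else 0) =
        g x * ∑ y ∈ L.filter (fun y => f y = f x), g y := by
      intro x _
      rw [Finset.mul_sum, Finset.sum_filter]
      apply Finset.sum_congr rfl
      intro y _
      by_cases h : f x = f y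
      · rw [if_pos h, if_pos h.symm]
      · rw [if_neg h, if_neg (fun h' => h h'.symm)]
    rw [Finset.sum_congr rfl this]
    rw [← Finset.sum_fiberwise_of_maps_to (s := L) (t := L.image f) (g := f)
      (fun x hx => mem_image_of_mem f hx)]
    apply Finset.sum_nonneg
    intro b _
    have : ∑ x ∈ L.filter (fun x => f x = b), g x * ∑ y ∈ L.filter (fun y => f y = f x), g y =
        (∑ x ∈ L.filter (fun x => f x = b), g x) * (∑ y ∈ L.filter (fun y => f y = b), g y) := by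
      rw [Finset.sum_mul]
      apply Finset.sum_congr rfl
      intro x hx
      rw [(mem_filter.mp hx).2]
    rw [this]
    exact mul_self_nonneg _
  have h2 : (∑ t ∈ L ×ˢ L, if f t.1 = f t.2 then g t.1 * g t.2 else 0) =
      (((L ×ˢ L).filter (fun t => f t.1 = f t.2 ∧ 0 < s t.1 * s t.2)).card : ℝ) -
      ((L ×ˢ L).filter (fun t => f t.1 = f t.2 ∧ s t.1 * s t.2 < 0)).card := by
    rw [Finset.card_filter, Finset.card_filter]
    push_cast
    rw [← Finset.sum_sub_distrib]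
    apply Finset.sum_congr rfl
    intro t _
    by_cases h : f t.1 = f t.2
    · rw [if_pos h, hg]
      simp only [h, true_and]
    · rw [if_neg h]
      simp [h]
  rw [h2] at h1
  have : (((L ×ˢ L).filter (fun t => f t.1 = f t.2 ∧ s t.1 * s t.2 < 0)).card : ℝ) ≤
      ((L ×ˢ L).filter (fun t => f t.1 = f t.2 ∧ 0 < s t.1 * s t.2)).card := by linarith
  exact_mod_cast this

open Classical in
/-- pairs of `NN` for fixed `p`, `q`, with a condition on the position with respect to the line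
`p q` -/
noncomputable def cnt (P : Finset Pl) (χ : Pl → ℕ) (R : ℝ → Prop) (p q : Pl) : ℕ :=
  (P.offDiag.filter (fun s => χ s.1 = χ s.2 ∧ Rel p q s.1 s.2 ∧
    R (ori p q s.1 * ori p q s.2))).card

lemma cnt_opp (P : Finset Pl) (χ : Pl → ℕ) (p q : Pl) (hpq : p ≠ q) :
    cnt P χ (fun r => r < 0) p q ≤ cnt P χ (fun r => 0 < r) p q + (PL P χ p q).card := by
  classical
  set L := (PL P χ p q).filter (fun x => ND p q (dd p x - dd q x)) with hL
  have h1 : cnt P χ (fun r => r < 0) p q ≤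
      ((L ×ˢ L).filter (fun t => (χ t.1, dd p t.1 - dd q t.1) = (χ t.2, dd p t.2 - dd q t.2) ∧
        ori p q t.1 * ori p q t.2 < 0)).card := by
    unfold cnt
    apply Finset.card_le_card
    rintro ⟨x, y⟩ h
    rw [mem_filter, mem_offDiag] at h
    obtain ⟨⟨hx, hy, hxy⟩, hc, hR, ho⟩ := h
    simp only at hx hy hxy hc hR ho
    rw [mem_filter, mem_product]
    refine ⟨⟨?_, ?_⟩, ?_, ho⟩
    · rw [hL, mem_filter]
      exact ⟨mem_PL hx hy hxy hc ho.le, hR.2.2.1⟩
    · rw [hL, mem_filter]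
      refine ⟨mem_PL hy hx hxy.symm hc.symm (by rw [mul_comm]; exact ho.le), ?_⟩
      simp only
      rw [← hR.2.1]
      exact hR.2.2.1
    · simp only [Prod.mk.injEq]
      exact ⟨hc, hR.2.1⟩
  have h2 : ((L ×ˢ L).filter (fun t => (χ t.1, dd p t.1 - dd q t.1) =
      (χ t.2, dd p t.2 - dd q t.2) ∧ ori p q t.1 * ori p q t.2 < 0)).card ≤
      ((L ×ˢ L).filter (fun t => (χ t.1, dd p t.1 - dd q t.1) =
      (χ t.2, dd p t.2 - dd q t.2) ∧ 0 < ori p q t.1 * ori p q t.2)).card := by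
    convert opp_le L (fun x => (χ x, dd p x - dd q x)) (fun x => ori p q x)
  have h3 : ((L ×ˢ L).filter (fun t => (χ t.1, dd p t.1 - dd q t.1) =
      (χ t.2, dd p t.2 - dd q t.2) ∧ 0 < ori p q t.1 * ori p q t.2)) ⊆
      (P.offDiag.filter (fun s => χ s.1 = χ s.2 ∧ Rel p q s.1 s.2 ∧
        0 < (ori p q s.1 * ori p q s.2))) ∪ (PL P χ p q).image (fun x => (x, x)) := by
    rintro ⟨x, y⟩ h
    rw [mem_filter, mem_product] at h
    obtain ⟨⟨hx, hy⟩, hf, ho⟩ := h
    rw [hL, mem_filter] at hx hy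
    rw [mem_union]
    by_cases hxy : x = y
    · right
      rw [mem_image]
      exact ⟨x, hx.1, by rw [← hxy]⟩
    · left
      rw [Prod.mk.injEq] at hf
      have hxP : x ∈ P := (mem_filter.mp hx.1).1
      have hyP : y ∈ P := (mem_filter.mp hy.1).1
      rw [mem_filter, mem_offDiag]
      refine ⟨⟨hxP, hyP, hxy⟩, hf.1, ⟨hxy, hf.2, hx.2, ?_⟩, ho⟩
      intro hd
      have hd2 : dd q x = dd q y := by linarith [hf.2]
      have hm := mirror hxy hpq hd hd2
      exact absurd ho (not_lt.mpr hm)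
  have h4 := Finset.card_le_card h3
  have h5 := Finset.card_union_le (P.offDiag.filter (fun s => χ s.1 = χ s.2 ∧ Rel p q s.1 s.2 ∧
        0 < (ori p q s.1 * ori p q s.2))) ((PL P χ p q).image (fun x => (x, x)))
  have h6 : ((PL P χ p q).image (fun x => (x, x))).card ≤ (PL P χ p q).card :=
    Finset.card_image_le
  have h7 : (P.offDiag.filter (fun s => χ s.1 = χ s.2 ∧ Rel p q s.1 s.2 ∧
        0 < (ori p q s.1 * ori p q s.2))).card = cnt P χ (fun r => 0 < r) p q := by
    unfold cnt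
    congr
  omega

lemma cnt_zero (P : Finset Pl) (χ : Pl → ℕ) (p q : Pl) (hpq : p ≠ q) :
    cnt P χ (fun r => r = 0) p q ≤ 2 * (PL P χ p q).card := by
  classical
  unfold cnt
  have hsub : (P.offDiag.filter (fun s => χ s.1 = χ s.2 ∧ Rel p q s.1 s.2 ∧
      (ori p q s.1 * ori p q s.2) = 0)) ⊆
      (P.offDiag.filter (fun s => χ s.1 = χ s.2 ∧ Rel p q s.1 s.2 ∧ ori p q s.1 = 0)) ∪
      (P.offDiag.filter (fun s => χ s.1 = χ s.2 ∧ Rel p q s.1 s.2 ∧ ori p q s.2 = 0)) := by
    intro s hs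
    rw [mem_filter] at hs
    rw [mem_union, mem_filter, mem_filter]
    rcases mul_eq_zero.mp hs.2.2.2 with h | h
    · left; exact ⟨hs.1, hs.2.1, hs.2.2.1, h⟩
    · right; exact ⟨hs.1, hs.2.1, hs.2.2.1, h⟩
  have h1 : (P.offDiag.filter (fun s => χ s.1 = χ s.2 ∧ Rel p q s.1 s.2 ∧
      ori p q s.1 = 0)).card ≤ (PL P χ p q).card := by
    apply Finset.card_le_card_of_injOn (fun s => s.2)
    · rintro ⟨x, y⟩ hs
      rw [mem_coe, mem_filter, mem_offDiag] at hs
      obtain ⟨⟨hx, hy, hxy⟩, hc, hR, ho⟩ := hs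
      simp only at hx hy hxy hc hR ho
      exact mem_PL hy hx hxy.symm hc.symm (by rw [ho, mul_zero])
    · rintro ⟨x, y⟩ hs ⟨x', y'⟩ hs' hyy
      rw [mem_coe, mem_filter, mem_offDiag] at hs hs'
      obtain ⟨⟨hx, hy, hxy⟩, hc, hR, ho⟩ := hs
      obtain ⟨⟨hx', hy', hxy'⟩, hc', hR', ho'⟩ := hs'
      simp only at hx hy hxy hc hR ho hx' hy' hxy' hc' hR' ho' hyy
      subst hyy
      have := uniq hpq ho ho' (hR.2.1.trans hR'.2.1.symm) hR.2.2.1.2
      rw [this]
  have h2 : (P.offDiag.filter (fun s => χ s.1 = χ s.2 ∧ Rel p q s.1 s.2 ∧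
      ori p q s.2 = 0)).card ≤ (PL P χ p q).card := by
    apply Finset.card_le_card_of_injOn (fun s => s.1)
    · rintro ⟨x, y⟩ hs
      rw [mem_coe, mem_filter, mem_offDiag] at hs
      obtain ⟨⟨hx, hy, hxy⟩, hc, hR, ho⟩ := hs
      simp only at hx hy hxy hc hR ho
      exact mem_PL hx hy hxy hc (by rw [ho, mul_zero])
    · rintro ⟨x, y⟩ hs ⟨x', y'⟩ hs' hyy
      rw [mem_coe, mem_filter, mem_offDiag] at hs hs'
      obtain ⟨⟨hx, hy, hxy⟩, hc, hR, ho⟩ := hs
      obtain ⟨⟨hx', hy', hxy'⟩, hc', hR', ho'⟩ := hs'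
      simp only at hx hy hxy hc hR ho hx' hy' hxy' hc' hR' ho' hyy
      subst hyy
      have := uniq hpq ho ho' (hR.2.1.symm.trans hR'.2.1) (by rw [← hR.2.1]; exact hR.2.2.1.2)
      rw [this]
  have h3 := Finset.card_le_card hsub
  have h4 := Finset.card_union_le
    (P.offDiag.filter (fun s => χ s.1 = χ s.2 ∧ Rel p q s.1 s.2 ∧ ori p q s.1 = 0))
    (P.offDiag.filter (fun s => χ s.1 = χ s.2 ∧ Rel p q s.1 s.2 ∧ ori p q s.2 = 0))
  refine le_trans (le_of_eq ?_) (h3.trans (h4.trans ?_))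
  · congr
  · omega

open Classical in
/-- quadruples of `NN` with a condition on the position of `x`, `y` with respect to the line
`p q` -/
noncomputable def MM (P : Finset Pl) (χ ψ : Pl → ℕ) (R : ℝ → Prop) : ℕ :=
  ((P.offDiag ×ˢ P.offDiag).filter (fun s => χ s.1.1 = χ s.1.2 ∧ ψ s.2.1 = ψ s.2.2 ∧
    Rel s.2.1 s.2.2 s.1.1 s.1.2 ∧ R (ori s.2.1 s.2.2 s.1.1 * ori s.2.1 s.2.2 s.1.2))).card

lemma MM_eq (P : Finset Pl) (χ ψ : Pl → ℕ) (R : ℝ → Prop) :
    MM P χ ψ R = ∑ t ∈ P.offDiag.filter (fun s => ψ s.1 = ψ s.2), cnt P χ R t.1 t.2 := by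
  classical
  unfold MM cnt
  rw [Finset.card_filter, Finset.sum_product_right, Finset.sum_filter]
  apply Finset.sum_congr rfl
  intro t _
  by_cases h : ψ t.1 = ψ t.2
  · rw [if_pos h, Finset.card_filter]
    apply Finset.sum_congr rfl
    intro s _
    simp only [h, true_and]
  · rw [if_neg h]
    apply Finset.sum_eq_zero
    intro s _
    simp [h]

/-- pairs of `NN` with a condition on the position of `p`, `q` with respect to the line `x y` -/
noncomputable def NR (P : Finset Pl) (χ ψ : Pl → ℕ) (R : ℝ → Prop) : ℕ := by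
  classical
  exact ((P.offDiag ×ˢ P.offDiag).filter (fun s => χ s.1.1 = χ s.1.2 ∧ ψ s.2.1 = ψ s.2.2 ∧
    Rel s.2.1 s.2.2 s.1.1 s.1.2 ∧ R (ori s.1.1 s.1.2 s.2.1 * ori s.1.1 s.1.2 s.2.2))).card

lemma NR_le (hsym : SYM) (P : Finset Pl) (χ ψ : Pl → ℕ) (R : ℝ → Prop) :
    NR P χ ψ R ≤ MM P ψ χ R := by
  classical
  unfold NR MM
  apply Finset.card_le_card_of_injOn (fun s => (s.2, s.1))
  · rintro ⟨⟨x, y⟩, ⟨p, q⟩⟩ hs
    rw [mem_coe, mem_filter, mem_product] at hs
    obtain ⟨⟨h1, h2⟩, h3, h4, h5, h6⟩ := hs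
    rw [mem_coe, mem_filter, mem_product]
    exact ⟨⟨h2, h1⟩, h4, h3, hsym _ _ _ _ h5, h6⟩
  · rintro ⟨a, b⟩ _ ⟨c, d⟩ _ h
    simp only [Prod.mk.injEq] at h
    rw [h.1, h.2]

lemma NN_split (P : Finset Pl) (χ ψ : Pl → ℕ) :
    NN P χ ψ ≤ NR P χ ψ (fun r => 0 < r) + NO P χ ψ + NR P χ ψ (fun r => r = 0) := by
  classical
  unfold NN NR NO
  refine le_trans (Finset.card_le_card ?_) (le_trans (Finset.card_union_le _ _)
    (Nat.add_le_add_right (Finset.card_union_le _ _) _))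
  intro s hs
  rw [mem_filter] at hs
  obtain ⟨h1, h2, h3, h4⟩ := hs
  rw [mem_union, mem_union, mem_filter, mem_filter, mem_filter]
  rcases lt_trichotomy (ori s.1.1 s.1.2 s.2.1 * ori s.1.1 s.1.2 s.2.2) 0 with h | h | h
  · left; right; exact ⟨h1, h2, h3, h4, h⟩
  · right; exact ⟨h1, h2, h3, h4, h⟩
  · left; left; exact ⟨h1, h2, h3, h4, h⟩

lemma NR_pos_le (hex : EXCL) (P : Finset Pl) (χ ψ : Pl → ℕ) :
    NR P χ ψ (fun r => 0 < r) ≤ MM P χ ψ (fun r => r < 0) + MM P χ ψ (fun r => r = 0) := by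
  classical
  unfold NR MM
  refine le_trans (Finset.card_le_card ?_) (Finset.card_union_le _ _)
  intro s hs
  rw [mem_filter] at hs
  obtain ⟨h1, h2, h3, h4, h5⟩ := hs
  rw [mem_union, mem_filter, mem_filter]
  rcases lt_trichotomy (ori s.2.1 s.2.2 s.1.1 * ori s.2.1 s.2.2 s.1.2) 0 with h | h | h
  · left; exact ⟨h1, h2, h3, h4, h⟩
  · right; exact ⟨h1, h2, h3, h4, h⟩
  · exact absurd h4.2.1 (hex _ _ _ _ h5 h)

lemma MM_pos_le (hex : EXCL) (P : Finset Pl) (χ ψ : Pl → ℕ) :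
    MM P χ ψ (fun r => 0 < r) ≤ NO P χ ψ + NR P χ ψ (fun r => r = 0) := by
  classical
  unfold NR MM NO
  refine le_trans (Finset.card_le_card ?_) (Finset.card_union_le _ _)
  intro s hs
  rw [mem_filter] at hs
  obtain ⟨h1, h2, h3, h4, h5⟩ := hs
  rw [mem_union, mem_filter, mem_filter]
  rcases lt_trichotomy (ori s.1.1 s.1.2 s.2.1 * ori s.1.1 s.1.2 s.2.2) 0 with h | h | h
  · left; exact ⟨h1, h2, h3, h4, h⟩
  · right; exact ⟨h1, h2, h3, h4, h⟩
  · exact absurd h4.2.1 (hex _ _ _ _ h h5)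

lemma MM_opp (P : Finset Pl) (χ ψ : Pl → ℕ) (c : ℝ) (hc : CrLe P χ c) :
    (MM P χ ψ (fun r => r < 0) : ℝ) ≤ MM P χ ψ (fun r => 0 < r) +
      Real.sqrt (2 * c * prs P χ) * prs P ψ := by
  rw [MM_eq, MM_eq]
  have h : ∀ t ∈ P.offDiag.filter (fun s => ψ s.1 = ψ s.2),
      (cnt P χ (fun r => r < 0) t.1 t.2 : ℝ) ≤ cnt P χ (fun r => 0 < r) t.1 t.2 +
        Real.sqrt (2 * c * prs P χ) := by
    intro t ht
    rw [mem_filter, mem_offDiag] at ht
    have h1 := cnt_opp P χ t.1 t.2 ht.1.2.2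
    have h2 := card_PL_le P χ c hc t.1 t.2 ht.1.2.2
    have h3 : (cnt P χ (fun r => r < 0) t.1 t.2 : ℝ) ≤ cnt P χ (fun r => 0 < r) t.1 t.2 +
      (PL P χ t.1 t.2).card := by exact_mod_cast h1
    linarith
  push_cast
  refine (Finset.sum_le_sum h).trans (le_of_eq ?_)
  rw [Finset.sum_add_distrib, Finset.sum_const, nsmul_eq_mul]
  unfold prs
  ring

lemma MM_zero (P : Finset Pl) (χ ψ : Pl → ℕ) (c : ℝ) (hc : CrLe P χ c) :
    (MM P χ ψ (fun r => r = 0) : ℝ) ≤ 2 * Real.sqrt (2 * c * prs P χ) * prs P ψ := by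
  rw [MM_eq]
  have h : ∀ t ∈ P.offDiag.filter (fun s => ψ s.1 = ψ s.2),
      (cnt P χ (fun r => r = 0) t.1 t.2 : ℝ) ≤ 2 * Real.sqrt (2 * c * prs P χ) := by
    intro t ht
    rw [mem_filter, mem_offDiag] at ht
    have h1 := cnt_zero P χ t.1 t.2 ht.1.2.2
    have h2 := card_PL_le P χ c hc t.1 t.2 ht.1.2.2
    have h3 : (cnt P χ (fun r => r = 0) t.1 t.2 : ℝ) ≤ 2 * (PL P χ t.1 t.2).card := by
      exact_mod_cast h1
    linarith
  push_cast
  refine (Finset.sum_le_sum h).trans (le_of_eq ?_)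
  rw [Finset.sum_const, nsmul_eq_mul]
  unfold prs
  ring

/-- MODULE ARMS -/
theorem arms : SYM → EXCL → ARMS := by
  intro hsym hex P χ ψ cχ cψ hχ hψ
  have h1 := NN_split P χ ψ
  have h2 := NR_pos_le hex P χ ψ
  have h3 := MM_pos_le hex P χ ψ
  have h4 := MM_opp P χ ψ cχ hχ
  have h5 := MM_zero P χ ψ cχ hχ
  have h6 := NR_le hsym P χ ψ (fun r => r = 0)
  have h7 := MM_zero P ψ χ cψ hψ
  have h1' : (NN P χ ψ : ℝ) ≤ NR P χ ψ (fun r => 0 < r) + NO P χ ψ + NR P χ ψ (fun r => r = 0) := by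
    exact_mod_cast h1
  have h2' : (NR P χ ψ (fun r => 0 < r) : ℝ) ≤ MM P χ ψ (fun r => r < 0) +
    MM P χ ψ (fun r => r = 0) := by exact_mod_cast h2
  have h3' : (MM P χ ψ (fun r => 0 < r) : ℝ) ≤ NO P χ ψ + NR P χ ψ (fun r => r = 0) := by
    exact_mod_cast h3
  have h6' : (NR P χ ψ (fun r => r = 0) : ℝ) ≤ MM P ψ χ (fun r => r = 0) := by
    exact_mod_cast h6
  linarith

end Pool.Agent.H86.Per
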